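import Pool.Agent.Lib.MP_befe0b_co.BK.Shape
import Pool.Agent.Lib.MP_befe0b_co.RX.Stat

/-! A first moment bound for copies of the power of the tree in a random threshold graph. -/

open Finset Real
open scoped BigOperators Classical

noncomputable section

namespace Pool.Agent.Lib.MP_befe0b_co.BK

variable {m a p : ℕ}

/-- The threshold graph of a family of points of the cube. -/
def host (τ : ℝ) {V : Type} (x : V → Fin m → Bool) : SimpleGraph V :=
  SimpleGraph.fromRel fun u v => τ ≤ ip (vec (x u)) (x v)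

/-- The roots and the used vertices of all copies. -/
abbrev Us (J : Fin p → Finset (Fin a)) := Rt a ⊕ Σ c : Fin p, Option (Bool ⊕ J c)

/-- The weight of a placement of the used vertices. -/
def Wt (β τ n : ℝ) (J : Fin p → Finset (Fin a)) (z : Us J → Fin m → Bool) : ℝ :=
  if Good β fun r => z (.inl r) then
    ∏ c, Ph β τ n (fun r => z (.inl r)) (J c) fun k => z (.inr ⟨c, k⟩) else 0

/-- The weight of a pair of close points. -/
def W1 (β : ℝ) (y : Bool → Fin m → Bool) : ℝ :=
  exp (5 * β * ip (vec (y false)) (y true) + -(25 * β ^ 2 * m))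

/-- The weight of a cluster. -/
def W2 (y : Fin a → Fin m → Bool) : ℝ :=
  exp (1 / (8 * a) * (∑ i, (∑ j, sg (y j i)) ^ 2 - 2 * a * m))

/-- The total weight. -/
def bad (a p : ℕ) (β τ n : ℝ) {V : Type} [Fintype V] [DecidableEq V] (x : V → Fin m → Bool) : ℝ :=
  ∑ ψ : Bool ↪ V, W1 β (fun j => x (ψ j)) + ∑ ψ : Fin a ↪ V, W2 (fun j => x (ψ j)) +
    ∑ J : Fin p → Finset (Fin a), ∑ ψ : Us J ↪ V, Wt β τ n J fun j => x (ψ j)

/-- The inclusion of the used vertices. -/
def inc (J : Fin p → Finset (Fin a)) : Us J → (Fin p × Option (Bool ⊕ Fin a)) ⊕ Rt a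
  | .inl r => .inr r
  | .inr z => .inl (z.1, z.2.map (Sum.map id Subtype.val))

theorem inc_inj (J : Fin p → Finset (Fin a)) : Function.Injective (inc J) := by
  rintro (r | ⟨c, k⟩) (s | ⟨d, l⟩) h <;> simp only [inc, Sum.inl.injEq, Sum.inr.injEq,
    Prod.mk.injEq, reduceCtorEq] at h ⊢
  · exact h
  · obtain ⟨rfl, h⟩ := h
    rw [Option.map_injective (Function.Injective.sumMap (fun _ _ => id) Subtype.val_injective) h]

theorem Wt_nonneg (β τ n : ℝ) (J : Fin p → Finset (Fin a)) (z : Us J → Fin m → Bool) :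
    0 ≤ Wt β τ n J z := by
  rw [Wt]
  split_ifs
  exacts [prod_nonneg fun _ _ => (Ph_pos ..).le, le_rfl]

theorem one_le_Ph {β τ n : ℝ} {r : Rt a → Fin m → Bool} {J : Finset (Fin a)}
    {u : Option (Bool ⊕ J) → Fin m → Bool} (h1 : ∀ k, 1 ≤ ek β τ (u none) (u (some k)))
    (h2 : ∀ b c, 1 ≤ ek β τ (r (.inl (b, c))) (u (some (.inl b))))
    (h3 : ∀ j : J, 1 ≤ ek β τ (r (.inr j)) (u (some (.inr j))))
    (hJ : ∀ j, j ∈ J ↔ lp β τ n (u none) (r (.inr j)) < 0) : 1 ≤ Ph β τ n r J u := by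
  rw [Ph]
  refine one_le_mul_of_one_le_of_one_le (one_le_prod ?_) (one_le_prod fun j hj => one_le_exp ?_)
  · rintro (b | j) - <;> rw [wt]
    · exact one_le_mul_of_one_le_of_one_le (h1 _) (one_le_mul_of_one_le_of_one_le (h2 ..) (h2 ..))
    · exact one_le_mul_of_one_le_of_one_le (one_le_mul_of_one_le_of_one_le (h1 _) (h3 _))
        (one_le_exp (mul_nonneg_of_nonpos_of_nonpos (by norm_num) ((hJ _).1 j.2).le))
  · exact mul_nonneg (by norm_num) (not_lt.1 fun k => mem_compl.1 hj ((hJ _).2 k))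

theorem Wt_le {β τ n : ℝ} (hβ : β = 1 / 10 ^ 8) (ha : a * β = 400000)
    (hD : n - 2 * β * τ ≤ (5 * β ^ 4 / 512 - 2 * log (cosh β)) * m) (J : Fin p → Finset (Fin a)) :
    exp n ^ Fintype.card (Us J) * 𝔼 z : Us J → Fin m → Bool, Wt β τ n J z ≤
      exp n ^ (4 + a) * exp (-(β ^ 3 * m)) ^ p := by
  rw [Fintype.expect_equiv ((Equiv.sumArrowEquivProdArrow _ _ _).trans ((Equiv.refl _).prodCongr
      (Equiv.piCurry fun c (_ : Option (Bool ⊕ J c)) => Fin m → Bool))) (Wt β τ n J)
    (fun z => if Good β z.1 then ∏ c, Ph β τ n z.1 (J c) (z.2 c) else 0) fun _ => rfl,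
    ex_pair, Fintype.card_sum, Fintype.card_sigma, pow_add, mul_assoc, mul_expect,
    show Fintype.card (Rt a) = 4 + a by simp]
  refine mul_le_mul_of_nonneg_left (expect_le univ_nonempty fun r _ => ?_) (by positivity)
  by_cases h : Good β r
  · simp only [h, if_true]
    rw [ex_prod fun c u => Ph β τ n r (J c) u, ← prod_pow_eq_pow_sum, ← prod_mul_distrib,
      ← Fin.prod_const]
    exact prod_le_prod (fun c _ => mul_nonneg (by positivity)
      (expect_nonneg fun _ _ => (Ph_pos ..).le)) fun c _ => copy_le hβ ha hD h _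
  · simp only [h, if_false, expect_const_zero, mul_zero]
    positivity

theorem bad_ex {β τ n : ℝ} (hβ : β = 1 / 10 ^ 8) (ha : a * β = 400000)
    (hD : n - 2 * β * τ ≤ (5 * β ^ 4 / 512 - 2 * log (cosh β)) * m) {V : Type} [Fintype V]
    [DecidableEq V] (hV : (Fintype.card V : ℝ) = exp n) :
    𝔼 x : V → Fin m → Bool, bad a p β τ n x ≤ exp n ^ 2 * exp (-(25 / 2 * β ^ 2 * m)) +
      exp n ^ a * exp (-(m / 12)) + (2 ^ a) ^ p * (exp n ^ (4 + a) * exp (-(β ^ 3 * m)) ^ p) := by
  have a0 : 0 < a := Nat.pos_of_ne_zero fun h => by norm_num [h] at ha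
  simp only [bad, expect_add_distrib]
  refine add_le_add (add_le_add ?_ ?_) ?_
  · refine (ex_emb_le (W1 β) fun _ => (exp_pos _).le).trans ?_
    rw [hV, Fintype.card_bool]
    refine mul_le_mul_of_nonneg_left ?_ (by positivity)
    refine (ex_bool fun s t => exp (5 * β * ip (vec s) t + -(25 * β ^ 2 * m))).trans_le
      (expect_le univ_nonempty fun s _ => ?_)
    rw [ex_cosh]
    refine (mul_le_mul_of_nonneg_right (pow_le_pow_left₀ (cosh_pos _).le
      (cosh_le_exp_half_sq _) m) (exp_pos _).le).trans_eq ?_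
    rw [← exp_nat_mul, ← exp_add]
    ring_nf
  · refine (ex_emb_le W2 fun _ => (exp_pos _).le).trans ?_
    rw [hV, Fintype.card_fin]
    exact mul_le_mul_of_nonneg_left (ex_clu a a0) (by positivity)
  · rw [expect_sum_comm]
    refine (sum_le_card_nsmul _ _ _ fun J _ => (ex_emb_le _ (Wt_nonneg β τ n J)).trans
      (hV ▸ Wt_le hβ ha hD J)).trans_eq ?_
    simp [hV]

theorem one_le_bad {β τ n : ℝ} (hβ : 0 ≤ β) {V : Type} [Fintype V] [DecidableEq V]
    (x : V → Fin m → Bool) (f : (RX.rpw (tr a) p).Copy (host τ x)) : 1 ≤ bad a p β τ n x := by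
  have s1 : 0 ≤ ∑ ψ : Bool ↪ V, W1 β fun j => x (ψ j) := sum_nonneg fun _ _ => (exp_pos _).le
  have s2 : 0 ≤ ∑ ψ : Fin a ↪ V, W2 fun j => x (ψ j) := sum_nonneg fun _ _ => (exp_pos _).le
  have s3 : ∀ J : Fin p → Finset (Fin a), 0 ≤ ∑ ψ : Us J ↪ V, Wt β τ n J fun j => x (ψ j) :=
    fun J => sum_nonneg fun _ _ => Wt_nonneg ..
  have s4 := sum_nonneg fun J (_ : J ∈ univ) => s3 J
  have he : ∀ c w w', (tr a).Adj w w' → 1 ≤ ek β τ (x (f (w.map (Prod.mk c) id)))
      (x (f (w'.map (Prod.mk c) id))) := fun c w w' h => by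
    have h1 : (RX.rpw (tr a) p).Adj (w.map (Prod.mk c) id) (w'.map (Prod.mk c) id) :=
      ⟨fun e => h.ne (Function.Injective.sumMap (Prod.mk_right_injective c) (fun _ _ => id) e),
        .inl ⟨c, w, w', h, rfl, rfl⟩⟩
    refine one_le_exp (mul_nonneg hβ (sub_nonneg.2 ?_))
    exact (f.toHom.map_adj h1).2.elim id fun k => k.trans_eq (ip_comm _ _)
  rw [bad]
  by_cases h : Good β fun r => x (f (.inr r))
  · let J : Fin p → Finset (Fin a) := fun c =>
      univ.filter fun j => lp β τ n (x (f (.inl (c, none)))) (x (f (.inr (.inr j)))) < 0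
    have h1 : 1 ≤ Wt β τ n J fun j => x (f (inc J j)) := by
      have h0 : Good β fun r => x (f (inc J (.inl r))) := h
      rw [Wt, if_pos h0]
      refine one_le_prod fun c _ => one_le_Ph (fun k => ?_) (fun b d => ?_) (fun j => ?_) fun j => ?_
      · simpa [inc] using he c _ _ (adj_top (k.map id Subtype.val))
      · simpa [inc, par] using he c _ _ (adj_root (.inl (b, d))).symm
      · simpa [inc, par] using he c _ _ (adj_root (.inr j.1)).symm
      · simp [inc, J]
    have h2 := single_le_sum (f := fun ψ : Us J ↪ V => Wt β τ n J fun j => x (ψ j))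
      (fun _ _ => Wt_nonneg ..) (mem_univ ⟨fun j => f (inc J j), f.injective.comp (inc_inj J)⟩)
    linarith [(h1.trans h2).trans (single_le_sum (fun J _ => s3 J) (mem_univ J))]
  · rcases not_and_or.1 h with h | h
    · obtain ⟨b, h⟩ := not_forall.1 h
      have h1 : 1 ≤ W1 β fun j => x (f (.inr (.inl (b, j)))) :=
        one_le_exp (by nlinarith [mul_le_mul_of_nonneg_left (not_le.1 h).le hβ])
      have h2 := single_le_sum (f := fun ψ : Bool ↪ V => W1 β fun j => x (ψ j))
        (fun _ _ => (exp_pos _).le) (mem_univ ⟨fun j => f (.inr (.inl (b, j))),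
          fun i j e => by simpa using f.injective e⟩)
      linarith [h1.trans h2]
    · have h1 : 1 ≤ W2 fun j => x (f (.inr (.inr j))) :=
        one_le_exp (mul_nonneg (by positivity) (sub_nonneg.2 (not_le.1 h).le))
      have h2 := single_le_sum (f := fun ψ : Fin a ↪ V => W2 fun j => x (ψ j))
        (fun _ _ => (exp_pos _).le) (mem_univ ⟨fun j => f (.inr (.inr j)),
          fun i j e => by simpa using f.injective e⟩)
      linarith [h1.trans h2]

end Pool.Agent.Lib.MP_befe0b_co.BK
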