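import Mathlib

/-! Averages over the discrete cube. -/

open Finset Real
open scoped BigOperators

noncomputable section

namespace Pool.Agent.Lib.MP_befe0b_co.BK

variable {m : ℕ}

/-- The sign of a bit. -/
def sg (b : Bool) : ℝ := if b then 1 else -1

/-- The pairing of a real vector with a point of the cube. -/
def ip (φ : Fin m → ℝ) (y : Fin m → Bool) : ℝ := ∑ i, φ i * sg (y i)

/-- A point of the cube as a real vector. -/
def vec (x : Fin m → Bool) (i : Fin m) : ℝ := sg (x i)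

theorem sg_sq (s : Bool) : sg s ^ 2 = 1 := by
  cases s <;> norm_num [sg]

theorem cosh_sg (c : ℝ) (s : Bool) : cosh (c * sg s) = cosh c := by
  cases s <;> simp [sg]

theorem ip_comm (x y : Fin m → Bool) : ip (vec x) y = ip (vec y) x :=
  sum_congr rfl fun _ _ => mul_comm _ _

theorem ex_prod {ι : Type} [Fintype ι] [DecidableEq ι] {κ : ι → Type} [∀ i, Fintype (κ i)]
    (f : ∀ i, κ i → ℝ) : 𝔼 x : (∀ i, κ i), ∏ i, f i (x i) = ∏ i, 𝔼 y, f i y := by
  simp only [Fintype.expect_eq_sum_div_card, prod_div_distrib, Fintype.prod_sum, Fintype.card_pi,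
    Nat.cast_prod]

theorem ex_pair {X Y : Type} [Fintype X] [Fintype Y] (f : X × Y → ℝ) :
    𝔼 z, f z = 𝔼 x, 𝔼 y, f (x, y) := by
  rw [← univ_product_univ, expect_product]

theorem ex_exp (φ : Fin m → ℝ) : 𝔼 y, exp (ip φ y) = ∏ i, cosh (φ i) := by
  simp only [ip, exp_sum]
  rw [ex_prod fun i (s : Bool) => exp (φ i * sg s)]
  refine prod_congr rfl fun i _ => ?_
  rw [Fintype.expect_eq_sum_div_card]
  simp [sg, cosh_eq]

theorem ex_exp_le (φ : Fin m → ℝ) : 𝔼 y, exp (ip φ y) ≤ exp ((∑ i, φ i ^ 2) / 2) := by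
  rw [ex_exp, sum_div, exp_sum]
  exact prod_le_prod (fun i _ => (cosh_pos _).le) fun i _ => cosh_le_exp_half_sq _

theorem ex_cosh (c d : ℝ) (x : Fin m → Bool) :
    𝔼 y, exp (c * ip (vec x) y + d) = cosh c ^ m * exp d := by
  have h : ∀ y, exp (c * ip (vec x) y + d) = exp (ip (fun i => c * vec x i) y) * exp d := fun y => by
    simp only [exp_add, ip, mul_sum, mul_assoc]
  simp only [h, ← expect_mul, ex_exp, vec, cosh_sg, prod_const, card_univ, Fintype.card_fin]

theorem ex_inj {J V P : Type} [Fintype J] [Fintype V] [Fintype P] [DecidableEq J] [DecidableEq V]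
    [Nonempty P] (ψ : J ↪ V) (F : (J → P) → ℝ) :
    𝔼 x : V → P, F (fun j => x (ψ j)) = 𝔼 y, F y := by
  classical
  let e : J ⊕ ↥(Set.range ψ)ᶜ ≃ V :=
    (Equiv.sumCongr (Equiv.ofInjective ψ ψ.injective) (Equiv.refl _)).trans
      (Equiv.Set.sumCompl (Set.range ψ))
  let E : (V → P) ≃ (J → P) × (↥(Set.range ψ)ᶜ → P) :=
    (Equiv.arrowCongr e.symm (Equiv.refl P)).trans (Equiv.sumArrowEquivProdArrow _ _ _)
  rw [Fintype.expect_equiv E (fun x => F fun j => x (ψ j)) (fun y => F y.1) fun x => rfl, ex_pair]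
  simp only [Fintype.expect_const]

theorem ex_emb {J V P : Type} [Fintype J] [Fintype V] [Fintype P] [DecidableEq J] [DecidableEq V]
    [Nonempty P] (F : (J → P) → ℝ) :
    𝔼 x : V → P, ∑ ψ : J ↪ V, F (fun j => x (ψ j)) =
      (Fintype.card V).descFactorial (Fintype.card J) * 𝔼 y, F y := by
  simp only [expect_sum_comm, ex_inj, sum_const, card_univ, Fintype.card_embedding_eq,
    nsmul_eq_mul]

theorem ex_emb_le {J V P : Type} [Fintype J] [Fintype V] [Fintype P] [DecidableEq J]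
    [DecidableEq V] [Nonempty P] (F : (J → P) → ℝ) (hF : ∀ y, 0 ≤ F y) :
    𝔼 x : V → P, ∑ ψ : J ↪ V, F (fun j => x (ψ j)) ≤
      (Fintype.card V : ℝ) ^ Fintype.card J * 𝔼 y, F y := by
  rw [ex_emb]
  exact mul_le_mul_of_nonneg_right (by exact_mod_cast Nat.descFactorial_le_pow _ _)
    (expect_nonneg fun y _ => hF y)

theorem ex_bool {P : Type} [Fintype P] (F : P → P → ℝ) :
    𝔼 y : Bool → P, F (y false) (y true) = 𝔼 a, 𝔼 b, F a b :=
  (Fintype.expect_equiv (Equiv.boolArrowEquivProd P) _ (fun z => F z.1 z.2) fun _ => rfl).trans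
    (ex_pair _)

theorem ex_sq : ∀ (a : ℕ) (ξ : ℝ), 0 ≤ ξ → 2 * a * ξ < 1 →
    𝔼 z : Fin a → Bool, exp (ξ * (∑ j, sg (z j)) ^ 2) ≤ exp (a * ξ / (1 - 2 * a * ξ))
  | 0, ξ, _, _ => by simp
  | a + 1, ξ, h0, h1 => by
    push_cast at h1 ⊢
    have a0 : (0 : ℝ) ≤ a * ξ := by positivity
    have h2 : 0 < 1 - 2 * ξ := by nlinarith
    have h3 : 0 < 1 - 2 * (a + 1) * ξ := by linarith
    have h4 : 1 - 2 * a * (ξ / (1 - 2 * ξ)) = (1 - 2 * (a + 1) * ξ) / (1 - 2 * ξ) := by
      field_simp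
      ring
    have ih := ex_sq a (ξ / (1 - 2 * ξ)) (by positivity) (by linarith [div_pos h3 h2])
    have h5 : ξ + 2 * ξ ^ 2 ≤ ξ / (1 - 2 * ξ) := by
      rw [le_div_iff₀ h2]
      nlinarith [pow_nonneg h0 3]
    rw [Fintype.expect_equiv (Fin.consEquiv fun _ => Bool).symm _
      (fun z => exp (ξ * (sg z.1 + ∑ j, sg (z.2 j)) ^ 2))
      (fun z => by rw [Fin.sum_univ_succ]; rfl), ex_pair, expect_comm]
    calc _ ≤ 𝔼 z : Fin a → Bool, exp ξ * exp (ξ / (1 - 2 * ξ) * (∑ j, sg (z j)) ^ 2) := by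
          refine expect_le_expect fun z _ => ?_
          dsimp only
          generalize ∑ j, sg (z j) = X
          have e : 𝔼 s : Bool, exp (ξ * (sg s + X) ^ 2) =
              exp (ξ + ξ * X ^ 2) * cosh (2 * ξ * X) := by
            simp only [Fintype.expect_eq_sum_div_card, Fintype.sum_bool, sg, cosh_eq, if_true,
              Bool.false_eq_true, if_false, Fintype.card_bool, ← mul_div_assoc, mul_add, ← exp_add]
            push_cast
            ring_nf
          rw [e]
          refine (mul_le_mul_of_nonneg_left (cosh_le_exp_half_sq _) (exp_pos _).le).trans ?_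
          rw [← exp_add, ← exp_add, exp_le_exp]
          nlinarith [mul_le_mul_of_nonneg_right h5 (sq_nonneg X)]
      _ ≤ exp ξ * exp (a * (ξ / (1 - 2 * ξ)) / (1 - 2 * a * (ξ / (1 - 2 * ξ)))) := by
          rw [← mul_expect]
          exact mul_le_mul_of_nonneg_left ih (exp_pos _).le
      _ ≤ _ := by
          rw [← exp_add, exp_le_exp, h4, add_mul (a : ℝ) 1 ξ, add_div, add_comm]
          refine add_le_add (le_of_eq ?_) ?_
          · rw [← mul_div_assoc, div_div_div_cancel_right₀ h2.ne']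
          rw [le_div_iff₀ h3]
          nlinarith [mul_nonneg h0 h0, mul_nonneg a0 h0]

theorem ex_clu (a : ℕ) (ha : 0 < a) : 𝔼 y : Fin a → Fin m → Bool,
    exp (1 / (8 * a) * (∑ i, (∑ j, sg (y j i)) ^ 2 - 2 * a * m)) ≤ exp (-(m / 12)) := by
  have a0 : (0 : ℝ) < a := by exact_mod_cast ha
  have h := ex_sq a (1 / (8 * a)) (by positivity) (by field_simp; norm_num)
  rw [show a * (1 / (8 * a)) / (1 - 2 * a * (1 / (8 * a))) = (1 / 6 : ℝ) by field_simp; norm_num]
    at h
  rw [Fintype.expect_equiv (Equiv.piComm fun _ _ => Bool) _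
    (fun z => (∏ i, exp (1 / (8 * a) * (∑ j, sg (z i j)) ^ 2)) * exp (-(m / 4))) fun y => by
      rw [← exp_sum, ← exp_add, ← mul_sum, mul_sub]
      congr 2
      field_simp
      ring]
  rw [← expect_mul, ex_prod fun _ (z : Fin a → Bool) => exp (1 / (8 * a) * (∑ j, sg (z j)) ^ 2)]
  calc _ ≤ (∏ _i : Fin m, exp (1 / 6)) * exp (-(m / 4)) :=
        mul_le_mul_of_nonneg_right (prod_le_prod
          (fun _ _ => expect_nonneg fun _ _ => (exp_pos _).le) fun _ _ => h) (exp_pos _).le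
    _ = _ := by
        rw [prod_const, card_univ, Fintype.card_fin, ← exp_nat_mul, ← exp_add]
        ring_nf

end Pool.Agent.Lib.MP_befe0b_co.BK
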