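import Pool.Agent.Lib.MP_befe0b_co.BK.Num

/-! The weighted count of one copy on fixed roots. -/

open Finset Real
open scoped BigOperators

noncomputable section

namespace Pool.Agent.Lib.MP_befe0b_co.BK

variable {m a : ℕ}

/-- The roots: two pairs and `a` single ones. -/
abbrev Rt (a : ℕ) := (Bool × Bool) ⊕ Fin a

/-- The weight of an edge. -/
def ek (β τ : ℝ) (x y : Fin m → Bool) : ℝ := exp (β * (ip (vec x) y - τ))

/-- The logarithm of the weighted number of common neighbours. -/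
def lp (β τ n : ℝ) (v t : Fin m → Bool) : ℝ :=
  n - 2 * β * τ + log (cosh (2 * β)) / 2 * (m + ip (vec t) v)

/-- The weight of a neighbour of the centre. -/
def wt (β τ n : ℝ) (r : Rt a → Fin m → Bool) (J : Finset (Fin a)) (v : Fin m → Bool) :
    Bool ⊕ J → (Fin m → Bool) → ℝ
  | .inl b, y => ek β τ v y * (ek β τ (r (.inl (b, false))) y * ek β τ (r (.inl (b, true))) y)
  | .inr j, y => ek β τ v y * ek β τ (r (.inr j)) y * exp ((1 / 256 - 1) * lp β τ n v (r (.inr j)))

/-- The weight of one copy. -/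
def Ph (β τ n : ℝ) (r : Rt a → Fin m → Bool) (J : Finset (Fin a))
    (u : Option (Bool ⊕ J) → Fin m → Bool) : ℝ :=
  (∏ k, wt β τ n r J (u none) k (u (some k))) *
    ∏ j ∈ Jᶜ, exp (1 / 256 * lp β τ n (u none) (r (.inr j)))

/-- Roots in general position. -/
def Good (β : ℝ) (r : Rt a → Fin m → Bool) : Prop :=
  (∀ b, ip (vec (r (.inl (b, false)))) (r (.inl (b, true))) ≤ 5 * β * m) ∧
    ∑ i, (∑ j, sg (r (.inr j) i)) ^ 2 ≤ 2 * a * m

theorem ek_pos (β τ : ℝ) (x y : Fin m → Bool) : 0 < ek β τ x y := exp_pos _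

theorem Ph_pos (β τ n : ℝ) (r : Rt a → Fin m → Bool) (J : Finset (Fin a))
    (u : Option (Bool ⊕ J) → Fin m → Bool) : 0 < Ph β τ n r J u := by
  refine mul_pos (prod_pos fun k _ => ?_) (prod_pos fun _ _ => exp_pos _)
  rcases k with b | j
  · exact mul_pos (ek_pos ..) (mul_pos (ek_pos ..) (ek_pos ..))
  · exact mul_pos (mul_pos (ek_pos ..) (ek_pos ..)) (exp_pos _)

theorem leg (β τ n : ℝ) (v t : Fin m → Bool) :
    exp n * 𝔼 w, ek β τ v w * ek β τ t w = exp (lp β τ n v t) := by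
  have h : ∀ w, ek β τ v w * ek β τ t w =
      exp (ip (fun i => β * (vec v i + vec t i)) w) * exp (-(2 * β * τ)) := fun w => by
    simp only [ek, ← exp_add, ip, mul_add, add_mul, sum_add_distrib, mul_assoc, ← mul_sum]
    ring_nf
  have h2 : ∀ i, cosh (β * (vec v i + vec t i)) =
      exp (log (cosh (2 * β)) / 2 * (1 + vec t i * sg (v i))) := fun i => by
    have e := exp_log (cosh_pos (2 * β))
    simp only [vec]
    cases v i <;> cases t i <;> norm_num [sg]
    · rw [e]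
      ring_nf
    · rw [e]
      ring_nf
  simp only [h, ← expect_mul, ex_exp, h2]
  simp only [← exp_sum, ← exp_add, ← mul_sum, sum_add_distrib, lp, ip,
    sum_const, card_univ, Fintype.card_fin, nsmul_eq_mul]
  ring_nf

theorem cherry (β τ : ℝ) (v r s : Fin m → Bool) :
    𝔼 y, ek β τ v y * (ek β τ r y * ek β τ s y) ≤
      exp (-(3 * β * τ) + β ^ 2 * (3 / 2 * m + ip (vec r) s + ip (vec r) v + ip (vec s) v)) := by
  have h : ∀ w, ek β τ v w * (ek β τ r w * ek β τ s w) =
      exp (ip (fun i => β * (vec v i + vec r i + vec s i)) w) * exp (-(3 * β * τ)) := fun w => by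
    simp only [ek, ← exp_add, ip, mul_add, add_mul, sum_add_distrib, mul_assoc, ← mul_sum]
    ring_nf
  have h2 : ∀ i, (β * (vec v i + vec r i + vec s i)) ^ 2 = 2 * (β ^ 2 *
      (3 / 2 + vec r i * sg (s i) + vec r i * sg (v i) + vec s i * sg (v i))) := fun i => by
    simp only [vec]
    linear_combination β ^ 2 * (sg_sq (v i) + sg_sq (r i) + sg_sq (s i))
  simp only [h, ← expect_mul]
  refine (mul_le_mul_of_nonneg_right (ex_exp_le _) (exp_pos _).le).trans (le_of_eq ?_)
  simp only [h2, ← exp_add, ← mul_sum, sum_add_distrib, ip, sum_const, card_univ,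
    Fintype.card_fin, nsmul_eq_mul]
  ring_nf

theorem copy_num {β A κ l D M X : ℝ} (hβ : β = 1 / 10 ^ 8) (hA : A * β = 400000) (hM : 0 ≤ M)
    (k0 : 0 ≤ κ) (k1 : κ ≤ (2 * β) ^ 2 / 2) (l1 : β ^ 2 - β ^ 4 / 2 ≤ 2 * l)
    (l2 : β ^ 4 / 32 ≤ 2 * l - κ / 2) (hD : D ≤ (5 * β ^ 4 / 512 - 2 * l) * M)
    (hX : X ≤ 16 * β ^ 4 * M + (κ / 512) ^ 2 * (2 * A * M)) :
    3 * D + β ^ 2 * (3 * M + 10 * β * M) + A / 256 * (D + κ / 2 * M) + X ≤ -(β ^ 3 * M) := by
  have b0 : 0 < β := by rw [hβ]; norm_num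
  have A0 : 0 ≤ A := by
    by_contra h
    nlinarith [mul_pos (neg_pos.2 (not_le.1 h)) b0]
  have h1 := mul_le_mul_of_nonneg_right l1 hM
  have h2 := mul_le_mul_of_nonneg_right l2 hM
  have h3 : A / 256 * (D + κ / 2 * M) ≤ A / 256 * (-(11 / 512) * β ^ 4 * M) :=
    mul_le_mul_of_nonneg_left (by linarith) (by positivity)
  have h4 : (κ / 512) ^ 2 * (2 * A * M) ≤ (β ^ 2 / 256) ^ 2 * (2 * A * M) :=
    mul_le_mul_of_nonneg_right (pow_le_pow_left₀ (by positivity) (by linarith) 2) (by positivity)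
  have h5 : A * β ^ 4 * M = 400000 * (β ^ 3 * M) := by rw [← hA]; ring
  have h6 : β ^ 4 * M = 1 / 10 ^ 8 * (β ^ 3 * M) := by rw [← hβ]; ring
  have h7 : 0 ≤ β ^ 3 * M := by positivity
  linarith

theorem copy_le {β τ n : ℝ} (hβ : β = 1 / 10 ^ 8) (ha : a * β = 400000)
    (hD : n - 2 * β * τ ≤ (5 * β ^ 4 / 512 - 2 * log (cosh β)) * m) {r : Rt a → Fin m → Bool}
    (hr : Good β r) (J : Finset (Fin a)) :
    exp n ^ Fintype.card (Option (Bool ⊕ J)) * 𝔼 u, Ph β τ n r J u ≤ exp (-(β ^ 3 * m)) := by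
  have b0 : 0 ≤ β := by rw [hβ]; norm_num
  have b1 : β ≤ 1 := by rw [hβ]; norm_num
  set κ := log (cosh (2 * β)) with hκ
  let φ : Fin m → ℝ := fun i =>
    β ^ 2 * ∑ b, vec (r (.inl b)) i + κ / 512 * ∑ j, sg (r (.inr j) i)
  let K := 3 * (n - 2 * β * τ) + β ^ 2 * (3 * m + 10 * β * m) +
    a / 256 * (n - 2 * β * τ + κ / 2 * m)
  have h1 : ∀ v, exp n ^ Fintype.card (Option (Bool ⊕ J)) * ((∏ k, 𝔼 y, wt β τ n r J v k y) *
      ∏ j ∈ Jᶜ, exp (1 / 256 * lp β τ n v (r (.inr j)))) ≤ exp K * exp (ip φ v) := fun v => by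
    have e1 : exp n ^ J.card * ∏ j : J, 𝔼 y, wt β τ n r J v (.inr j) y =
        ∏ j ∈ J, exp (1 / 256 * lp β τ n v (r (.inr j))) := by
      rw [← prod_coe_sort J, ← Fintype.card_coe J, ← card_univ, ← prod_const, ← prod_mul_distrib]
      refine prod_congr rfl fun j _ => ?_
      simp only [wt]
      rw [← expect_mul, ← mul_assoc, leg, ← exp_add]
      ring_nf
    have e2 := prod_le_prod (s := univ) (f := fun b => 𝔼 y, wt β τ n r J v (.inl b) y)
      (fun b _ => expect_nonneg fun y _ =>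
        (mul_pos (ek_pos ..) (mul_pos (ek_pos ..) (ek_pos ..))).le)
      fun b _ => cherry β τ v (r (.inl (b, false))) (r (.inl (b, true)))
    have e3 : ip φ v = β ^ 2 * ∑ b, ip (vec (r (.inl b))) v +
        κ / 512 * ∑ j, ip (vec (r (.inr j))) v := by
      simp only [φ, ip, vec, add_mul, sum_add_distrib, mul_assoc, ← mul_sum, sum_mul]
      rw [sum_comm, sum_comm (s := univ) (t := univ) (f := fun i j => sg (r (.inr j) i) * sg (v i))]
    calc _ = exp n ^ 3 * (∏ b, 𝔼 y, wt β τ n r J v (.inl b) y) *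
          ((exp n ^ J.card * ∏ j : J, 𝔼 y, wt β τ n r J v (.inr j) y) *
            ∏ j ∈ Jᶜ, exp (1 / 256 * lp β τ n v (r (.inr j)))) := by
          rw [Fintype.prod_sum_type, Fintype.card_option, Fintype.card_sum, Fintype.card_bool,
            Fintype.card_coe]
          ring
      _ ≤ _ := by
          rw [e1, prod_mul_prod_compl]
          refine (mul_le_mul_of_nonneg_right (mul_le_mul_of_nonneg_left e2 (by positivity))
            (by positivity)).trans ?_
          rw [← exp_sum, ← exp_sum, ← exp_nat_mul, ← exp_add, ← exp_add, ← exp_add, exp_le_exp, e3]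
          simp only [K, lp, ← hκ, ← mul_sum, sum_add_distrib, sum_const, card_univ, mul_add,
            Fintype.card_fin, nsmul_eq_mul, Fintype.sum_prod_type, Fintype.sum_bool,
            Fintype.card_bool]
          push_cast
          linarith [mul_le_mul_of_nonneg_left (hr.1 true) (sq_nonneg β),
            mul_le_mul_of_nonneg_left (hr.1 false) (sq_nonneg β)]
  have h2 : (∑ i, φ i ^ 2) / 2 ≤ 16 * β ^ 4 * m + (κ / 512) ^ 2 * (2 * a * m) := by
    have e1 : ∀ i, φ i ^ 2 / 2 ≤ 16 * β ^ 4 + (κ / 512) ^ 2 * (∑ j, sg (r (.inr j) i)) ^ 2 :=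
      fun i => by
        have e2 : (∑ b, vec (r (.inl b)) i) ^ 2 ≤ 16 := by
          have := sq_sum_le_card_mul_sum_sq (s := univ) (f := fun b => vec (r (.inl b)) i)
          simp only [vec, sg_sq] at this ⊢
          norm_num at this
          exact this
        simp only [φ]
        nlinarith [mul_le_mul_of_nonneg_left e2 (show 0 ≤ β ^ 4 by positivity),
          sq_nonneg (β ^ 2 * ∑ b, vec (r (.inl b)) i - κ / 512 * ∑ j, sg (r (.inr j) i))]
    have e3 := sum_le_sum fun i (_ : i ∈ univ) => e1 i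
    rw [← sum_div, sum_add_distrib, sum_const, ← mul_sum, card_univ, Fintype.card_fin,
      nsmul_eq_mul] at e3
    linarith [mul_le_mul_of_nonneg_left hr.2 (sq_nonneg (κ / 512))]
  rw [Fintype.expect_equiv (Equiv.piOptionEquivProd (β := fun _ => Fin m → Bool)) (Ph β τ n r J)
    (fun z => (∏ k, wt β τ n r J z.1 k (z.2 k)) *
      ∏ j ∈ Jᶜ, exp (1 / 256 * lp β τ n z.1 (r (.inr j)))) fun _ => rfl, ex_pair, mul_expect]
  calc _ ≤ 𝔼 v, exp K * exp (ip φ v) := expect_le_expect fun v _ => by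
        dsimp only
        rw [← expect_mul, ex_prod fun k y => wt β τ n r J v k y]
        exact h1 v
    _ ≤ exp K * exp ((∑ i, φ i ^ 2) / 2) := by
        rw [← mul_expect]
        exact mul_le_mul_of_nonneg_left (ex_exp_le φ) (exp_pos _).le
    _ ≤ _ := by
        rw [← exp_add, exp_le_exp]
        exact copy_num hβ ha (Nat.cast_nonneg m) (lc_nonneg _) (lc_le _) (lc_ge b0)
          (gap_ge b0 b1) hD h2

end Pool.Agent.Lib.MP_befe0b_co.BK
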