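import Pool.Agent.Lib.MP_befe0b_co.BK.Bad

/-! A dense graph without the power of the tree. -/

open Finset Real SimpleGraph Filter
open scoped BigOperators Classical

noncomputable section

namespace Pool.Agent.Lib.MP_befe0b_co.BK

variable {m a p : ℕ}

theorem ex_host {β τ n q : ℝ} {N : ℕ} (hβ : 0 ≤ β)
    (hq : ∀ x : Fin m → Bool, q ≤ 𝔼 y, if τ ≤ ip (vec x) y then (1 : ℝ) else 0)
    (hb : (N : ℝ) ^ 2 * 𝔼 x : Fin N → Fin m → Bool, bad a p β τ n x ≤ 3)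
    (h3 : 3 < N * (N - 1) * q) (hN : 1 ≤ N) :
    N * (N - 1) * q - 3 ≤ 2 * extremalNumber N (RX.rpw (tr a) p) := by
  let F : (Bool → Fin m → Bool) → ℝ := fun y => if τ ≤ ip (vec (y false)) (y true) then 1 else 0
  have N1 : (1 : ℝ) ≤ N := by exact_mod_cast hN
  have h1 : N * (N - 1) * q ≤ 𝔼 x : Fin N → Fin m → Bool, ∑ ψ : Bool ↪ Fin N, F fun j => x (ψ j) := by
    rw [ex_emb F, Fintype.card_fin, Fintype.card_bool, Nat.cast_descFactorial_two]
    refine mul_le_mul_of_nonneg_left ?_ (mul_nonneg (by linarith) (by linarith))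
    exact (le_expect univ_nonempty fun s _ => hq s).trans_eq
      (ex_bool fun s t => if τ ≤ ip (vec s) t then (1 : ℝ) else 0).symm
  obtain ⟨x, -, hx⟩ := exists_le_of_le_expect (a := N * (N - 1) * q - 3)
    (f := fun x : Fin N → Fin m → Bool => ∑ ψ : Bool ↪ Fin N, F (fun j => x (ψ j)) -
      (N : ℝ) ^ 2 * bad a p β τ n x) univ_nonempty
    (by rw [expect_sub_distrib, ← mul_expect]; linarith)
  have h2 : ∑ ψ : Bool ↪ Fin N, F (fun j => x (ψ j)) ≤ (N : ℝ) ^ 2 := by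
    refine (sum_le_card_nsmul _ _ 1 fun ψ _ => ?_).trans ?_
    · simp only [F]
      split_ifs <;> norm_num
    · rw [card_univ, Fintype.card_embedding_eq, Fintype.card_fin, Fintype.card_bool, nsmul_one]
      exact_mod_cast Nat.descFactorial_le_pow _ _
  have h4 : ∑ ψ : Bool ↪ Fin N, F (fun j => x (ψ j)) ≤ 2 * #(host τ x).edgeFinset := by
    simp only [F]
    rw [sum_boole, ← Fintype.card_subtype]
    norm_cast
    rw [← dart_card_eq_twice_card_edges]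
    refine Fintype.card_le_of_injective (fun ψ => ⟨(ψ.1 false, ψ.1 true),
      ψ.1.injective.ne (by simp), .inl ψ.2⟩) fun φ ψ e => ?_
    have e1 := Prod.ext_iff.1 (congrArg Dart.toProd e)
    ext (_ | _)
    exacts [congrArg _ e1.1, congrArg _ e1.2]
  have h5 : (RX.rpw (tr a) p).Free (host τ x) := fun ⟨f⟩ => by
    have := mul_le_mul_of_nonneg_left (one_le_bad (n := n) hβ x f) (sq_nonneg (N : ℝ))
    linarith
  have h6 := card_edgeFinset_le_extremalNumber h5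
  rw [Fintype.card_fin] at h6
  have h7 : (#(host τ x).edgeFinset : ℝ) ≤ extremalNumber N (RX.rpw (tr a) p) := by
    exact_mod_cast h6
  have h8 : 0 ≤ bad a p β τ n x := add_nonneg (add_nonneg (sum_nonneg fun _ _ => (exp_pos _).le)
    (sum_nonneg fun _ _ => (exp_pos _).le)) (sum_nonneg fun _ _ => sum_nonneg fun _ _ => Wt_nonneg ..)
  linarith [mul_nonneg (sq_nonneg (N : ℝ)) h8]

theorem bad_num {β ν n : ℝ} (hβ : β = 1 / 10 ^ 8) (ha : a * β = 400000) (h1 : ν ≤ 3 * β ^ 2)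
    (h2 : n ≤ ν * m) (h3 : (a + 7) * ν ≤ p * β ^ 3) (h4 : a * p ≤ ν * m) :
    exp n ^ 2 * (exp n ^ 2 * exp (-(25 / 2 * β ^ 2 * m)) + exp n ^ a * exp (-(m / 12)) +
      (2 ^ a) ^ p * (exp n ^ (4 + a) * exp (-(β ^ 3 * m)) ^ p)) ≤ 3 := by
  have m0 : (0 : ℝ) ≤ m := Nat.cast_nonneg m
  have a0 : (0 : ℝ) ≤ a := Nat.cast_nonneg a
  have b1 := mul_le_mul_of_nonneg_right h1 m0
  have b2 := mul_le_mul_of_nonneg_left (h2.trans b1) a0
  have b3 : a * (3 * β ^ 2 * m) = 3 * 400000 * (β * m) := by rw [← ha]; ring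
  have b4 : β ^ 2 * m = (1 / 10 ^ 8) ^ 2 * m := by rw [hβ]
  have b5 : β * m = 1 / 10 ^ 8 * m := by rw [hβ]
  have t1 : exp n ^ 2 * (exp n ^ 2 * exp (-(25 / 2 * β ^ 2 * m))) ≤ 1 := by
    simp only [← exp_nat_mul, ← exp_add, exp_le_one_iff]
    push_cast
    linarith
  have t2 : exp n ^ 2 * (exp n ^ a * exp (-(m / 12))) ≤ 1 := by
    simp only [← exp_nat_mul, ← exp_add, exp_le_one_iff]
    push_cast
    linarith
  have t3 : exp n ^ 2 * ((exp 1 ^ a) ^ p * (exp n ^ (4 + a) * exp (-(β ^ 3 * m)) ^ p)) ≤ 1 := by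
    simp only [← exp_nat_mul, ← exp_add, exp_le_one_iff]
    push_cast
    linarith [mul_le_mul_of_nonneg_left h2 a0, mul_le_mul_of_nonneg_right h3 m0]
  have t4 : exp n ^ 2 * ((2 ^ a) ^ p * (exp n ^ (4 + a) * exp (-(β ^ 3 * m)) ^ p)) ≤
      exp n ^ 2 * ((exp 1 ^ a) ^ p * (exp n ^ (4 + a) * exp (-(β ^ 3 * m)) ^ p)) := by
    gcongr
    linarith [add_one_le_exp 1]
  linarith

theorem lower : ∃ (a p : ℕ) (ε : ℝ), 0 < ε ∧ ∀ᶠ N : ℕ in atTop,
    (N : ℝ) ^ (3 / 2 + ε) ≤ extremalNumber N (RX.rpw (tr a) p) := by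
  obtain ⟨β, hβ⟩ : ∃ β : ℝ, β = 1 / 10 ^ 8 := ⟨_, rfl⟩
  obtain ⟨a, ha⟩ : ∃ a : ℕ, a * β = 400000 := ⟨40000000000000, by rw [hβ]; norm_num⟩
  have b0 : 0 < β := by rw [hβ]; norm_num
  have b1 : β ≤ 1 / 4 := by rw [hβ]; norm_num
  have l1 := mul_le_mul_of_nonneg_left (tanh_ge b0.le (by linarith)) b0.le
  have l2 := mul_le_mul_of_nonneg_left (tanh_le b0.le (by linarith)) b0.le
  have l3 := lc_le β
  have l4 := lc_nonneg β
  have b4 : 0 < β ^ 4 := by positivity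
  have b2 : β ^ 3 ≤ β ^ 2 / 4 := by nlinarith [pow_pos b0 2]
  have b3 : β ^ 4 ≤ β ^ 3 := by nlinarith [pow_pos b0 3]
  obtain ⟨c, hc⟩ : ∃ c, c = β * tanh β - log (cosh β) + β * (β ^ 3 / 1024) := ⟨_, rfl⟩
  obtain ⟨ν, hν⟩ : ∃ ν, ν = 2 * c + 3 * β ^ 4 / 512 := ⟨_, rfl⟩
  have c0 : 0 < c := by linarith
  have ν0 : 0 < ν := by linarith
  obtain ⟨p, hp⟩ := exists_nat_ge ((a + 7) * ν / β ^ 3)
  rw [div_le_iff₀ (by positivity)] at hp
  obtain ⟨ε, hε⟩ : ∃ ε, ε = (1 / 2 - c / ν) / 2 := ⟨_, rfl⟩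
  have ε0 : 0 < ε := by
    have : c / ν < 1 / 2 := by rw [div_lt_iff₀ ν0]; linarith
    linarith
  have hl := tendsto_log_atTop.comp (tendsto_natCast_atTop_atTop (R := ℝ))
  refine ⟨a, p, ε, ε0, ?_⟩
  filter_upwards [hl.eventually_ge_atTop (ν * (12 / (β ^ 3 / 1024) ^ 2)),
    hl.eventually_ge_atTop (a * p), hl.eventually_ge_atTop ((19 + c) / ε),
    eventually_ge_atTop 2] with N h1 h2 h3 h4
  have N2 : (2 : ℝ) ≤ N := by exact_mod_cast h4
  have hN : (N : ℝ) = exp (log N) := (exp_log (by linarith)).symm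
  have n0 : 0 ≤ log (N : ℝ) := log_nonneg (by linarith)
  simp only [Function.comp] at h1 h2 h3
  rw [rpow_def_of_pos (by linarith)]
  generalize log (N : ℝ) = n at *
  have m1 := Nat.le_ceil (n / ν)
  have m2 := (Nat.ceil_lt_add_one (div_nonneg n0 ν0.le)).le
  generalize ⌈n / ν⌉₊ = m at m1 m2
  rw [div_le_iff₀' ν0] at m1
  have m3 : 12 ≤ (β ^ 3 / 1024) ^ 2 * m := by
    rw [← div_le_iff₀' (by positivity)]
    exact le_of_mul_le_mul_left (h1.trans m1) ν0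
  have e1 : 20 * exp (n * (3 / 2 + ε)) ≤ exp n ^ 2 * exp (-(c * m)) := by
    rw [div_le_iff₀ ε0] at h3
    have k1 : 20 ≤ exp (n * ε - c) := by linarith [add_one_le_exp (n * ε - c)]
    refine (mul_le_mul_of_nonneg_right k1 (exp_pos _).le).trans ?_
    rw [← exp_nat_mul, ← exp_add, ← exp_add, exp_le_exp, hε]
    have k2 := mul_le_mul_of_nonneg_left m2 c0.le
    have k3 : c * (n / ν + 1) = n * (c / ν) + c := by ring
    push_cast
    linarith
  have e2 : 1 ≤ exp (n * (3 / 2 + ε)) := one_le_exp (by positivity)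
  have e3 : 5 * exp (n * (3 / 2 + ε)) ≤ N * (N - 1) * (exp (-(c * m)) / 2) := by
    rw [← hN] at e1
    nlinarith [mul_nonneg (show (0 : ℝ) ≤ N * (N - 2) by nlinarith) (exp_pos (-(c * m))).le]
  have hD : n - 2 * β * ((tanh β - β ^ 3 / 1024) * m) ≤
      (5 * β ^ 4 / 512 - 2 * log (cosh β)) * m := by
    rw [hν, hc] at m1
    linarith
  have hb := (mul_le_mul_of_nonneg_left (bad_ex (p := p) (V := Fin N) hβ ha hD
    (by rw [Fintype.card_fin, hN])) (sq_nonneg (exp n))).trans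
      (bad_num hβ ha (by linarith) m1 hp (h2.trans m1))
  have hq := edge_prob (m := m) b0.le (by positivity) (by nlinarith) m3
  rw [← hN] at hb
  rw [← hc] at hq
  linarith [ex_host b0.le hq hb (by linarith) (by omega)]

end Pool.Agent.Lib.MP_befe0b_co.BK
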