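import Pool.Agent.Lib.MP_befe0b_co.BK.Cube

/-! Hyperbolic estimates and the edge probability. -/

open Finset Real
open scoped BigOperators

noncomputable section

namespace Pool.Agent.Lib.MP_befe0b_co.BK

variable {m : ℕ}

theorem cosh_add_le (β h : ℝ) (hh : |h| ≤ 1) :
    cosh (β + h) ≤ cosh β * exp (tanh β * h + h ^ 2) := by
  have c0 := cosh_pos β
  have s1 := (sinh_lt_cosh β).le
  have s2 := (sinh_lt_cosh (-β)).le
  rw [sinh_neg, cosh_neg] at s2
  have e1 := (abs_le.1 (Real.abs_exp_sub_one_sub_id_le hh)).2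
  have e2 := (abs_le.1 (Real.abs_exp_sub_one_sub_id_le (x := -h) (by rwa [abs_neg]))).2
  have e3 := mul_le_mul_of_nonneg_left (add_one_le_exp (tanh β * h + h ^ 2)) c0.le
  have e4 : cosh β * (tanh β * h + h ^ 2 + 1) = sinh β * h + cosh β * (h ^ 2 + 1) := by
    rw [tanh_eq_sinh_div_cosh]
    field_simp
    ring
  rw [cosh_add, cosh_eq h, sinh_eq h]
  nlinarith [mul_le_mul_of_nonneg_left e1 (show 0 ≤ cosh β + sinh β by linarith),
    mul_le_mul_of_nonneg_left e2 (show 0 ≤ cosh β - sinh β by linarith)]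

theorem tail_le (β h δ : ℝ) (hh : |h| ≤ 1) (h1 : h ^ 2 = δ ^ 2 / 4) (hm : 12 ≤ δ ^ 2 * m) (d : ℝ) :
    cosh (β + h) ^ m * exp (d - (tanh β * h + δ ^ 2 / 2) * m) ≤ cosh β ^ m * exp d / 4 := by
  have a1 := add_one_le_exp (δ ^ 2 * m / 4)
  have a2 : exp (-(δ ^ 2 * m / 4)) ≤ 1 / 4 := by
    rw [exp_neg, ← one_div]
    exact one_div_le_one_div_of_le (by norm_num) (by linarith)
  calc _ ≤ (cosh β * exp (tanh β * h + h ^ 2)) ^ m * exp (d - (tanh β * h + δ ^ 2 / 2) * m) :=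
        mul_le_mul_of_nonneg_right (pow_le_pow_left₀ (cosh_pos _).le (cosh_add_le β h hh) _)
          (exp_pos _).le
    _ = cosh β ^ m * exp d * exp (-(δ ^ 2 * m / 4)) := by
        rw [mul_pow, ← exp_nat_mul, mul_assoc, mul_assoc, ← exp_add, ← exp_add, h1]
        ring_nf
    _ ≤ _ := by
        have := mul_le_mul_of_nonneg_left a2
          (mul_pos (pow_pos (cosh_pos β) m) (exp_pos d)).le
        linarith

theorem edge_prob {β δ : ℝ} (hβ : 0 ≤ β) (h0 : 0 < δ) (h2 : δ ≤ 2) (hm : 12 ≤ δ ^ 2 * m)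
    (x : Fin m → Bool) : exp (-((β * tanh β - log (cosh β) + β * δ) * m)) / 2 ≤
      𝔼 y, if (tanh β - δ) * m ≤ ip (vec x) y then (1 : ℝ) else 0 := by
  set d := -(β * ((tanh β + δ) * m)) with hd
  have h1 : ∀ S : ℝ, exp (β * S + d) -
      exp ((β + δ / 2) * S + (d - (tanh β * (δ / 2) + δ ^ 2 / 2) * m)) -
      exp ((β + -(δ / 2)) * S + (d - (tanh β * -(δ / 2) + δ ^ 2 / 2) * m)) ≤
      if (tanh β - δ) * m ≤ S then (1 : ℝ) else 0 := fun S => by
    have p1 := exp_pos ((β + δ / 2) * S + (d - (tanh β * (δ / 2) + δ ^ 2 / 2) * m))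
    have p2 := exp_pos ((β + -(δ / 2)) * S + (d - (tanh β * -(δ / 2) + δ ^ 2 / 2) * m))
    split_ifs with h
    · rcases le_total S ((tanh β + δ) * m) with k | k
      · have : exp (β * S + d) ≤ 1 :=
          exp_le_one_iff.2 (by nlinarith [mul_le_mul_of_nonneg_left k hβ])
        linarith
      · have : exp (β * S + d) ≤
            exp ((β + δ / 2) * S + (d - (tanh β * (δ / 2) + δ ^ 2 / 2) * m)) :=
          exp_le_exp.2 (by nlinarith [mul_le_mul_of_nonneg_left k h0.le])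
        linarith
    · have : exp (β * S + d) ≤
          exp ((β + -(δ / 2)) * S + (d - (tanh β * -(δ / 2) + δ ^ 2 / 2) * m)) :=
        exp_le_exp.2 (by nlinarith [mul_le_mul_of_nonneg_left (not_le.1 h).le h0.le])
      linarith
  refine le_trans ?_ (expect_le_expect fun y _ => h1 (ip (vec x) y))
  rw [expect_sub_distrib, expect_sub_distrib, ex_cosh, ex_cosh, ex_cosh]
  have ha : |δ / 2| ≤ 1 := abs_le.2 ⟨by linarith, by linarith⟩
  have t1 := tail_le β (δ / 2) δ ha (by ring) hm d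
  have t2 := tail_le β (-(δ / 2)) δ (by rwa [abs_neg]) (by ring) hm d
  have e : exp (-((β * tanh β - log (cosh β) + β * δ) * m)) = cosh β ^ m * exp d := by
    rw [← exp_log (pow_pos (cosh_pos β) m), ← exp_add, log_pow, hd]
    ring_nf
  rw [e]
  linarith

theorem lc_ge {β : ℝ} (h0 : 0 ≤ β) : β ^ 2 - β ^ 4 / 2 ≤ 2 * log (cosh β) := by
  have s : β / 2 ≤ sinh (β / 2) := self_le_sinh_iff.2 (by linarith)
  have c : cosh β = 1 + 2 * sinh (β / 2) ^ 2 := by
    rw [show β = 2 * (β / 2) by ring, cosh_two_mul, cosh_sq']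
    ring_nf
  have c1 : 1 + β ^ 2 / 2 ≤ cosh β := by nlinarith
  have p : 0 < 1 + β ^ 2 / 2 := by positivity
  have l1 := (one_sub_inv_le_log_of_pos p).trans (log_le_log p c1)
  have l2 : (1 + β ^ 2 / 2)⁻¹ ≤ 1 - β ^ 2 / 2 + β ^ 4 / 4 := by
    rw [inv_le_iff_one_le_mul₀ p]
    nlinarith [pow_nonneg h0 6]
  linarith

theorem lc_le (β : ℝ) : log (cosh β) ≤ β ^ 2 / 2 :=
  (log_le_iff_le_exp (cosh_pos β)).2 (cosh_le_exp_half_sq β)

theorem lc_nonneg (β : ℝ) : 0 ≤ log (cosh β) := log_nonneg (one_le_cosh β)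

theorem tanh_ge {β : ℝ} (h0 : 0 ≤ β) (h1 : β ≤ 1) : β / 2 ≤ tanh β := by
  have s : β ≤ sinh β := self_le_sinh_iff.2 h0
  have e1 := (abs_le.1 (Real.abs_exp_sub_one_sub_id_le (x := β ^ 2 / 2)
    (abs_le.2 ⟨by nlinarith, by nlinarith⟩))).2
  have c := cosh_le_exp_half_sq β
  have b : β ^ 2 ≤ 1 := by nlinarith
  have c2 : cosh β ≤ 2 := by nlinarith [sq_nonneg β]
  rw [tanh_eq_sinh_div_cosh, le_div_iff₀ (cosh_pos β)]
  nlinarith

theorem tanh_le {β : ℝ} (h0 : 0 ≤ β) (h1 : β ≤ 1) : tanh β ≤ β + β ^ 2 := by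
  have e1 := (abs_le.1 (Real.abs_exp_sub_one_sub_id_le (x := β) (abs_le.2 ⟨by linarith, h1⟩))).2
  have e2 := add_one_le_exp (-β)
  have c := one_le_cosh β
  rw [tanh_eq_sinh_div_cosh, div_le_iff₀ (cosh_pos β), sinh_eq]
  nlinarith [mul_le_mul_of_nonneg_left c (show 0 ≤ β + β ^ 2 by positivity), sq_nonneg β]

theorem gap_ge {β : ℝ} (h0 : 0 ≤ β) (h1 : β ≤ 1) :
    β ^ 4 / 32 ≤ 2 * log (cosh β) - log (cosh (2 * β)) / 2 := by
  have c0 := cosh_pos β
  have l := log_le_sub_one_of_pos (div_pos (cosh_pos (2 * β)) (pow_pos c0 4))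
  have e : cosh (2 * β) / cosh β ^ 4 - 1 = -tanh β ^ 4 := by
    have := cosh_sq' β
    rw [tanh_eq_sinh_div_cosh, cosh_two_mul]
    field_simp
    rw [show cosh β ^ 4 = (cosh β ^ 2) ^ 2 by ring, this]
    ring
  rw [e, log_div (cosh_pos _).ne' (pow_pos c0 4).ne', log_pow] at l
  have t := pow_le_pow_left₀ (by linarith) (tanh_ge h0 h1) 4
  push_cast at l
  nlinarith

end Pool.Agent.Lib.MP_befe0b_co.BK
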