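import Pool.Agent.Lib.MP_befe0b_co.BK.Leg

/-! The rooted tree: a centre with two cherries and `a` legs. -/

open Finset

namespace Pool.Agent.Lib.MP_befe0b_co.BK

variable {a : ℕ}

/-- The parent of a root. -/
def par : Rt a → Bool ⊕ Fin a := Sum.map Prod.fst id

/-- The tree. -/
def tr (a : ℕ) : SimpleGraph (Option (Bool ⊕ Fin a) ⊕ Rt a) :=
  SimpleGraph.fromRel fun x y => (∃ k, x = .inl none ∧ y = .inl (some k)) ∨
    ∃ r, x = .inl (some (par r)) ∧ y = .inr r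

/-- The edges, indexed by their lower ends. -/
def ed : (Bool ⊕ Fin a) ⊕ Rt a → Sym2 (Option (Bool ⊕ Fin a) ⊕ Rt a)
  | .inl k => s(.inl none, .inl (some k))
  | .inr r => s(.inl (some (par r)), .inr r)

/-- Two edges at each unrooted vertex. -/
def two : Option (Bool ⊕ Fin a) × Bool → (Bool ⊕ Fin a) ⊕ Rt a
  | (none, b) => .inl (.inl b)
  | (some (.inl b), c) => .inr (.inl (b, c))
  | (some (.inr j), false) => .inl (.inr j)
  | (some (.inr j), true) => .inr (.inr j)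

theorem adj_top (k : Bool ⊕ Fin a) : (tr a).Adj (.inl none) (.inl (some k)) :=
  ⟨by simp, .inl (.inl ⟨k, rfl, rfl⟩)⟩

theorem adj_root (r : Rt a) : (tr a).Adj (.inl (some (par r))) (.inr r) :=
  ⟨by simp, .inl (.inr ⟨r, rfl, rfl⟩)⟩

theorem ed_inj : Function.Injective (ed (a := a)) := by
  rintro (k | r) (l | s) h <;> simp_all [ed]

theorem two_inj : Function.Injective (two (a := a)) := by
  rintro ⟨_ | b | j, _ | _⟩ ⟨_ | c | k, _ | _⟩ h <;> simp_all [two]

theorem edge_tr : (tr a).edgeSet = Set.range ed := by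
  ext e
  refine ⟨fun h => ?_, ?_⟩
  · induction e using Sym2.ind with
    | h x y =>
      rcases h.2 with (⟨k, rfl, rfl⟩ | ⟨r, rfl, rfl⟩) | ⟨k, rfl, rfl⟩ | ⟨r, rfl, rfl⟩
      exacts [⟨.inl k, rfl⟩, ⟨.inr r, rfl⟩, ⟨.inl k, Sym2.eq_swap⟩, ⟨.inr r, Sym2.eq_swap⟩]
  · rintro ⟨k | r, rfl⟩
    exacts [adj_top k, adj_root r]

theorem card_tr : (tr a).edgeSet.ncard = 2 * Fintype.card (Option (Bool ⊕ Fin a)) := by
  rw [edge_tr, Set.ncard_range_of_injective ed_inj]
  simp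
  ring

theorem tree_tr : (tr a).IsTree := by
  refine SimpleGraph.isTree_iff_connected_and_card.2 ⟨?_, ?_⟩
  · refine (SimpleGraph.connected_iff_exists_forall_reachable _).2 ⟨.inl none, ?_⟩
    rintro ((_ | k) | r)
    exacts [.refl _, (adj_top k).reachable, (adj_top _).reachable.trans (adj_root r).reachable]
  · rw [Nat.card_coe_set_eq, card_tr]
    simp
    ring

theorem leaf_tr (x : Option (Bool ⊕ Fin a) ⊕ Rt a) :
    (∃! y, (tr a).Adj x y) ↔ ∃ r, x = .inr r := by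
  refine ⟨fun h => ?_, ?_⟩
  · rcases x with (_ | b | j) | r
    · simpa using h.unique (adj_top (.inl false)) (adj_top (.inl true))
    · simpa using h.unique (adj_top (.inl b)).symm (adj_root (.inl (b, false)))
    · simpa using h.unique (adj_top (.inr j)).symm (adj_root (.inr j))
    · exact ⟨r, rfl⟩
  · rintro ⟨r, rfl⟩
    refine ⟨_, (adj_root r).symm, fun y h => ?_⟩
    rcases h.2 with (⟨k, h, -⟩ | ⟨s, h, -⟩) | ⟨k, -, h⟩ | ⟨s, rfl, h⟩ <;> simp_all

theorem ind_tr (r s : Rt a) : ¬ (tr a).Adj (.inr r) (.inr s) := fun h => by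
  rcases h.2 with (⟨k, h, -⟩ | ⟨s, h, -⟩) | ⟨k, h, -⟩ | ⟨s, h, -⟩ <;> simp_all

theorem bal_tr (S : Finset (Option (Bool ⊕ Fin a))) :
    2 * S.card ≤ {e ∈ (tr a).edgeSet | ∃ s ∈ S, Sum.inl s ∈ e}.ncard := by
  have h : ∀ z : Option (Bool ⊕ Fin a) × Bool, Sum.inl z.1 ∈ ed (two z) := by
    rintro ⟨_ | b | j, _ | _⟩ <;> simp [ed, two, par]
  have e := Set.ncard_coe_finset (S ×ˢ (univ : Finset Bool))
  rw [card_product, card_univ, Fintype.card_bool, mul_comm] at e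
  rw [← e]
  refine Set.ncard_le_ncard_of_injOn (fun z => ed (two z)) (fun z hz => ⟨?_, z.1, ?_, h z⟩)
    (ed_inj.comp two_inj).injOn
  · rw [edge_tr]
    exact ⟨_, rfl⟩
  · exact (mem_product.1 hz).1

end Pool.Agent.Lib.MP_befe0b_co.BK
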